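import Pool.Agent.helper19.AR.Defs2

/-! # Modules PDm (minimal violating sets), RDa (pigeonhole) -/

namespace Pool.Agent.helper19.AR

/-- module PDm: existence of minimal violating sets -/
theorem PDm {α β : Type} [DecidableEq α] (S : Sys α β) (B : Finset α) (hB : B ⊆ S.V)
    (hne : B.Nonempty) (hv : B.card ≤ (col S B).card) :
    ∃ B' ⊆ B, MinV S B' := by
  induction hn : B.card using Nat.strong_induction_on generalizing B with
  | _ n ih =>
    by_cases h : ∃ D ⊆ B, D ≠ B ∧ D.Nonempty ∧ D.card ≤ (col S D).card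
    · obtain ⟨D, hDB, hDne, hD, hDv⟩ := h
      have hlt : D.card < n := by
        rw [← hn]
        exact Finset.card_lt_card (Finset.ssubset_iff_subset_ne.2 ⟨hDB, hDne⟩)
      obtain ⟨B', h1, h2⟩ := ih D.card hlt D (hDB.trans hB) hD hDv rfl
      exact ⟨B', h1.trans hDB, h2⟩
    · push Not at h
      exact ⟨B, Finset.Subset.refl _, ⟨hB, hne, hv, fun D h1 h2 h3 => h D h1 h2 h3⟩⟩

/-- module RDa -/
theorem RDa {α : Type} [DecidableEq α] (r M M1 : ℕ) (v : ℕ → ℕ → α) (X : Finset α)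
    (hX : X.card ≤ 3 * r) (hM1 : (3 * r + 1) * (M + 1) ≤ M1 + 1)
    (hv : ∀ j ≤ M1, ∀ i < r, ∀ j' ≤ M1, ∀ i' < r, v j i = v j' i' → j = j' ∧ i = i') :
    ∃ a, a + M ≤ M1 ∧ ∀ j ≤ M, ∀ i < r, v (a + j) i ∉ X := by
  by_contra hcon
  push Not at hcon
  have hb : ∀ t ∈ Finset.range (3 * r + 1), t * (M + 1) + M ≤ M1 := by
    intro t ht
    rw [Finset.mem_range] at ht
    have h1 : (t + 1) * (M + 1) ≤ (3 * r + 1) * (M + 1) := Nat.mul_le_mul_right _ (by omega)
    have h2 : (t + 1) * (M + 1) = t * (M + 1) + M + 1 := by ring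
    omega
  have hex : ∀ t : ℕ, ∃ j i, t ∈ Finset.range (3 * r + 1) →
      j ≤ M ∧ i < r ∧ v (t * (M + 1) + j) i ∈ X := by
    intro t
    by_cases ht : t ∈ Finset.range (3 * r + 1)
    · obtain ⟨j, hj, i, hi, h⟩ := hcon (t * (M + 1)) (hb t ht)
      exact ⟨j, i, fun _ => ⟨hj, hi, h⟩⟩
    · exact ⟨0, 0, fun h => absurd h ht⟩
  choose j i hji using hex
  have hinj : Set.InjOn (fun t => v (t * (M + 1) + j t) (i t))
      (Finset.range (3 * r + 1) : Set ℕ) := by
    intro t ht t' ht' htt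
    have ht1 : t ∈ Finset.range (3 * r + 1) := by simpa using ht
    have ht1' : t' ∈ Finset.range (3 * r + 1) := by simpa using ht'
    obtain ⟨h1, h2, _⟩ := hji t ht1
    obtain ⟨h1', h2', _⟩ := hji t' ht1'
    have h3 := hb t ht1
    have h3' := hb t' ht1'
    have h4 := (hv _ (by omega) _ h2 _ (by omega) _ h2' htt).1
    by_contra hne
    rcases Nat.lt_or_gt_of_ne hne with h | h
    · have h5 : (t + 1) * (M + 1) ≤ t' * (M + 1) := Nat.mul_le_mul_right _ h
      have h6 : (t + 1) * (M + 1) = t * (M + 1) + M + 1 := by ring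
      omega
    · have h5 : (t' + 1) * (M + 1) ≤ t * (M + 1) := Nat.mul_le_mul_right _ h
      have h6 : (t' + 1) * (M + 1) = t' * (M + 1) + M + 1 := by ring
      omega
  have h1 := Finset.card_le_card_of_injOn (fun t => v (t * (M + 1) + j t) (i t))
    (fun t ht => (hji t (by simpa using ht)).2.2) hinj
  rw [Finset.card_range] at h1
  omega

end Pool.Agent.helper19.AR
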