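import Pool.Agent.helper19.AR.Defs2

/-! # Module PB (a perfect strand from a modified layered strand) -/

namespace Pool.Agent.helper19.AR

lemma PB_mem_PN {α : Type} (r : ℕ) (v : ℕ → ℕ → α) (j i : ℕ) (x : α) :
    x ∈ PN r v j i ↔ (∃ i', (i < i' ∧ i' < r) ∧ v j i' = x) ∨
      (∃ i', i' < i + 1 ∧ v (j + 1) i' = x) := by
  classical
  unfold PN
  simp only [Finset.mem_union, Finset.mem_image, Finset.mem_Ioo, Finset.mem_range]

/-- module PB -/
theorem PB {α β : Type} [DecidableEq α] [DecidableEq β] (r M p q : ℕ) (hr : 2 ≤ r)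
    (hp : 1 ≤ p) (hpq : p ≤ q) (hq : q ≤ M) (S S' : Sys α β) (v : ℕ → ℕ → α) (c : ℕ → ℕ → β)
    (N : ℕ → ℕ → Finset α) (hL : Lay r M S v c N) (hM : IsMod r p q S S' v c)
    (hL' : Lay r M S' v c (fun j i => if p ≤ j ∧ j < q then PN r v j i else N j i)) :
    Perf r (r * (q - p)) S' (fun j => v (p + j / r) (j % r)) (fun j => c (p + j / r) (j % r)) := by
  have hr0 : 0 < r := by omega
  have hdiv1 : ∀ j, j < r * (q - p) + r → p + j / r ≤ q := by
    intro j hj
    have h1 : j / r < (q - p) + 1 := by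
      rw [Nat.div_lt_iff_lt_mul hr0]
      calc j < r * (q - p) + r := hj
        _ = (q - p + 1) * r := by ring
    omega
  have hdiv2 : ∀ j, j < r * (q - p) → p + j / r < q := by
    intro j hj
    have h1 : j / r < q - p := by
      rw [Nat.div_lt_iff_lt_mul hr0, mul_comm]
      exact hj
    omega
  have hmod : ∀ j, j % r < r := fun j => Nat.mod_lt _ hr0
  have heq : ∀ j j', p + j / r = p + j' / r → j % r = j' % r → j = j' := by
    intro j j' h1 h2
    rw [← Nat.div_add_mod j r, ← Nat.div_add_mod j' r, h2, show j / r = j' / r by omega]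
  have hJ : ∀ J i, i < r → (r * J + i) / r = J ∧ (r * J + i) % r = i := by
    intro J i hi
    refine ⟨?_, ?_⟩
    · rw [Nat.mul_add_div hr0, Nat.div_eq_of_lt hi, Nat.add_zero]
    · rw [Nat.mul_add_mod, Nat.mod_eq_of_lt hi]
  refine ⟨?_, ?_, ?_, ?_, ?_, ?_⟩
  · intro j hj
    exact hL'.v_mem _ ((hdiv1 j hj).trans hq) _ (hmod j)
  · intro j hj j' hj' h
    obtain ⟨h1, h2⟩ := hL'.v_inj _ ((hdiv1 j hj).trans hq) _ (hmod j) _
      ((hdiv1 j' hj').trans hq) _ (hmod j') h
    exact heq j j' h1 h2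
  · intro j hj
    exact hL'.c_mem _ (lt_of_lt_of_le (hdiv2 j hj) hq) _ (hmod j)
  · intro j hj j' hj' h
    obtain ⟨h1, h2⟩ := hL'.c_inj _ (lt_of_lt_of_le (hdiv2 j hj) hq) _ (hmod j) _
      (lt_of_lt_of_le (hdiv2 j' hj') hq) _ (hmod j') h
    exact heq j j' h1 h2
  · intro j hj e
    show e ∈ S'.E (c (p + j / r) (j % r)) ↔ ∃ t, 1 ≤ t ∧ t ≤ r ∧
      e = s(v (p + j / r) (j % r), v (p + (j + t) / r) ((j + t) % r))
    rw [hM.E_in (p + j / r) (Nat.le_add_right _ _) (hdiv2 j hj) (j % r) (hmod j)]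
    have hjd : r * (j / r) + j % r = j := Nat.div_add_mod j r
    have hjm := hmod j
    constructor
    · rintro ⟨w, hw, rfl⟩
      rw [PB_mem_PN] at hw
      rcases hw with ⟨i', hi', rfl⟩ | ⟨i', hi', rfl⟩
      · refine ⟨i' - j % r, by omega, by omega, ?_⟩
        have h1 : j + (i' - j % r) = r * (j / r) + i' := by omega
        obtain ⟨h2, h3⟩ := hJ (j / r) i' hi'.2
        rw [h1, h2, h3]
      · refine ⟨r - j % r + i', by omega, by omega, ?_⟩
        have h1 : j + (r - j % r + i') = r * (j / r + 1) + i' := by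
          have : r * (j / r + 1) = r * (j / r) + r := by ring
          omega
        obtain ⟨h2, h3⟩ := hJ (j / r + 1) i' (by omega)
        rw [h1, h2, h3, ← add_assoc]
    · rintro ⟨t, ht1, ht2, rfl⟩
      refine ⟨_, ?_, rfl⟩
      rw [PB_mem_PN]
      by_cases h : j % r + t < r
      · left
        refine ⟨j % r + t, ?_, ?_⟩
        · omega
        · have h1 : j + t = r * (j / r) + (j % r + t) := by omega
          obtain ⟨h2, h3⟩ := hJ (j / r) (j % r + t) h
          rw [h1, h2, h3]
      · right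
        refine ⟨j % r + t - r, ?_, ?_⟩
        · omega
        · have h1 : j + t = r * (j / r + 1) + (j % r + t - r) := by
            have : r * (j / r + 1) = r * (j / r) + r := by ring
            omega
          obtain ⟨h2, h3⟩ := hJ (j / r + 1) (j % r + t - r) (by omega)
          rw [h1, h2, h3, ← add_assoc]
  · intro a ha hne e he j hj1 hj2 hmem
    have hlt := hdiv2 j hj2
    have hge : 1 ≤ j / r := by
      rw [Nat.one_le_div_iff hr0]
      exact hj1
    obtain ⟨j', hj', i', hi', rfl⟩ := hL'.clean a ha e he (p + j / r) (by omega) (by omega)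
      (j % r) (hmod j) hmem
    -- the layer `j'` is between `p` and `q - 1`
    have hrange : p ≤ j' ∧ j' < q := by
      rw [hL'.c_E j' hj' i' hi'] at he
      obtain ⟨w, hw, rfl⟩ := he
      rcases Sym2.mem_iff.1 hmem with h | h
      · obtain ⟨h1, _⟩ := hL'.v_inj _ (by omega) _ (hmod j) _ (by omega) _ hi' h
        omega
      · rcases hL'.N_sub j' hj' i' hi' w hw with ⟨i'', hi'', _, hw'⟩ | ⟨i'', hi'', hw'⟩
        · rw [hw'] at h
          obtain ⟨h1, _⟩ := hL'.v_inj _ (by omega) _ (hmod j) _ (by omega) _ hi'' h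
          omega
        · rw [hw'] at h
          obtain ⟨h1, _⟩ := hL'.v_inj _ (by omega) _ (hmod j) _ (by omega) _ hi'' h
          omega
    obtain ⟨h2, h3⟩ := hJ (j' - p) i' hi'
    refine hne (r * (j' - p) + i') ?_ ?_
    · calc r * (j' - p) + i' < r * (j' - p) + r := by omega
        _ = r * (j' - p + 1) := by ring
        _ ≤ r * (q - p) := Nat.mul_le_mul_left _ (by omega)
    · show c j' i' = c (p + (r * (j' - p) + i') / r) ((r * (j' - p) + i') % r)
      rw [h2, h3]
      congr 1
      omega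

end Pool.Agent.helper19.AR
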