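import Pool.Agent.helper26.AR.LL
import Pool.Agent.helper13.AR.PC

/-! # Module AT (the asymptotic theorem) -/

namespace Pool.Agent.helper19.AR

lemma AT_dag {α β : Type} {r : ℕ} {S : Sys α β} {Z : Finset α} {R : Finset β} {st : α → β}
    {out : α → Finset α} {rk : α → ℕ} (hC : Core r S Z R st out rk) : Dag r S.V Z out rk where
  Z_sub := hC.Z_sub
  out_sub := hC.out_sub
  out_card := hC.out_card
  rk_inj := hC.rk_inj
  rk_lt := hC.rk_lt

/-- the sizes of the regions of the process -/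
lemma AT_count {α : Type} [DecidableEq α] {r K : ℕ} {V Z : Finset α} {out : α → Finset α}
    {rk : α → ℕ} (hD : Dag r V Z out rk) {Y : Finset α} {d : α → ℕ} {Ec : α → Finset α}
    (hP : Proc K V Z out Y d Ec) :
    ∑ y ∈ Y, (Ec y).card ≤ V.card ∧ K * Y.card ≤ V.card ∧
      ∑ y ∈ Y, (r * (d y - 1) + 1) ≤ V.card := by
  have h1 : ∑ y ∈ Y, (Ec y).card ≤ V.card := by
    rw [← Finset.card_biUnion hP.disj]
    apply Finset.card_le_card
    intro x hx
    rw [Finset.mem_biUnion] at hx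
    obtain ⟨y, hy, hx⟩ := hx
    exact (hP.E_sub y hy x hx).1
  refine ⟨h1, ?_, ?_⟩
  · refine le_trans ?_ h1
    calc K * Y.card = ∑ y ∈ Y, K := by rw [Finset.sum_const, smul_eq_mul, mul_comm]
      _ ≤ ∑ y ∈ Y, (Ec y).card := Finset.sum_le_sum fun y hy => hP.E_card y hy
  · refine le_trans (Finset.sum_le_sum fun y hy => ?_) h1
    have h2 := (LL r V Z out rk hD y (d y - 1) (fun x hx =>
      hP.E_sub y hy x (hP.ball_sub y hy hx))).2.2
    exact h2.trans (Finset.card_le_card (hP.ball_sub y hy))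

/-- module AT: the asymptotic theorem -/
theorem AT (r D : ℕ) (hr : 2 ≤ r) (hD : 1 ≤ D) : ∃ n0 : ℕ, ∀ (α β : Type)
    [DecidableEq α] [DecidableEq β] (S : Sys α β) (ℓ : ℕ), Good r S → Sparse S ℓ →
    n0 ≤ S.V.card → r * D * ℓ < (D + r) * S.V.card := by
  obtain ⟨n0, h0⟩ := PC r (2 * D) (2 * D * (4 * (2 * D) + 1)) hr (by omega)
    (Nat.mul_pos (by omega) (by omega))
  refine ⟨n0, ?_⟩
  intro α β _ _ S ℓ hG hS hn
  by_contra hcon
  push Not at hcon
  have hrl : S.V.card ≤ r * ℓ := by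
    have h1 : D * S.V.card ≤ D * (r * ℓ) := by
      calc D * S.V.card ≤ (D + r) * S.V.card := Nat.mul_le_mul_right _ (by omega)
        _ ≤ r * D * ℓ := hcon
        _ = D * (r * ℓ) := by ring
    exact Nat.le_of_mul_le_mul_left h1 (by omega)
  obtain ⟨Z, R, st, out, rk, Y, d, Ec, hC, hT, hP, hd⟩ := h0 α β S ℓ hG hS hrl hn
  obtain ⟨_, hY, hsum⟩ := AT_count (AT_dag hC) hP
  -- `r * sum d ≤ n + (r - 1) |Y|`
  have h2 : r * ∑ y ∈ Y, d y + Y.card ≤ S.V.card + r * Y.card := by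
    have h3 : ∑ y ∈ Y, (r * (d y - 1) + 1) + r * Y.card = r * ∑ y ∈ Y, d y + Y.card := by
      have e : r * Y.card = ∑ y ∈ Y, r := by rw [Finset.sum_const, smul_eq_mul, mul_comm]
      have e' : Y.card = ∑ y ∈ Y, 1 := by rw [Finset.sum_const, smul_eq_mul, mul_one]
      rw [e, e', Finset.mul_sum, ← Finset.sum_add_distrib, ← Finset.sum_add_distrib]
      apply Finset.sum_congr rfl
      intro y hy
      have h4 := hP.d_pos y hy
      obtain ⟨k, hk⟩ : ∃ k, d y = k + 1 := ⟨d y - 1, by omega⟩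
      rw [hk, Nat.add_sub_cancel]
      ring
    omega
  set n := S.V.card with hndef
  set s := ∑ y ∈ Y, d y with hs
  set w := Y.card with hw
  set z := Z.card with hz
  have h5 : 2 * D * (r * (ℓ + 1)) ≤ 2 * D * (r * (s + (4 * (2 * D) + 1) * z)) :=
    Nat.mul_le_mul_left _ (Nat.mul_le_mul_left _ hd)
  have h6 : 2 * D * (r * s + w) ≤ 2 * D * (n + r * w) := Nat.mul_le_mul_left _ h2
  have h7 : (r - 1) * (2 * D * w) ≤ (r - 1) * n := Nat.mul_le_mul_left _ hY
  have h8 : r * (2 * D * (4 * (2 * D) + 1) * z) ≤ r * n := Nat.mul_le_mul_left _ hT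
  obtain ⟨t, rfl⟩ : ∃ t, r = t + 1 := ⟨r - 1, by omega⟩
  rw [Nat.add_sub_cancel] at h7
  nlinarith

end Pool.Agent.helper19.AR
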