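import Pool.Agent.helper19.AR.Defs2

/-! # Module BP (bad pairs of a colour) -/

namespace Pool.Agent.helper19.AR

open Classical in
/-- module BP -/
theorem BP {α β : Type} [DecidableEq α] (r : ℕ) (hr : 2 ≤ r) (S : Sys α β) (hG : Good r S) (a : β)
    (ha : a ∈ S.C) :
    ∃ B : Finset (α × α), B.card ≤ 4 ∧ (∀ b ∈ B, b.1 ≠ b.2) ∧
      ∀ W : Finset α, (∀ v ∈ W, ¬ ∃ a' ∈ S.C, IsStar S v a') →
        (∀ b ∈ B, ¬ (b.1 ∈ W ∧ b.2 ∈ W)) → ∃ e ∈ S.E a, ∀ x ∈ e, x ∉ W := by
  obtain ⟨hcard, hE⟩ := hG.2 a ha
  have h1 : 1 < (S.E a).card := by omega
  obtain ⟨e1, he1, e2, he2, hne⟩ := Finset.one_lt_card.1 h1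
  by_cases hsh : ∃ c, c ∈ e1 ∧ c ∈ e2
  · obtain ⟨c, hc1, hc2⟩ := hsh
    obtain ⟨x, rfl⟩ := Sym2.mem_iff_exists.1 hc1
    obtain ⟨y, rfl⟩ := Sym2.mem_iff_exists.1 hc2
    have hxy : x ≠ y := by
      rintro rfl
      exact hne rfl
    by_cases hst : IsStar S c a
    · refine ⟨{(x, y)}, by simp, ?_, ?_⟩
      · intro b hb
        rw [Finset.mem_singleton] at hb
        subst hb
        exact hxy
      · intro W hW hB
        have hc : c ∉ W := fun h => hW c h ⟨a, ha, hst⟩
        have hp := hB (x, y) (Finset.mem_singleton_self _)
        simp only [not_and_or] at hp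
        rcases hp with hp | hp
        · refine ⟨s(c, x), he1, ?_⟩
          intro z hz
          rcases Sym2.mem_iff.1 hz with rfl | rfl
          · exact hc
          · exact hp
        · refine ⟨s(c, y), he2, ?_⟩
          intro z hz
          rcases Sym2.mem_iff.1 hz with rfl | rfl
          · exact hc
          · exact hp
    · unfold IsStar at hst
      push Not at hst
      obtain ⟨e3, he3, hce3⟩ := hst
      induction e3 using Sym2.ind with
      | _ z1 z2 =>
        rw [Sym2.mem_iff, not_or] at hce3
        refine ⟨{(x, y), (c, z1), (c, z2)}, ?_, ?_, ?_⟩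
        · refine (Finset.card_le_three).trans (by norm_num)
        · intro b hb
          simp only [Finset.mem_insert, Finset.mem_singleton] at hb
          rcases hb with rfl | rfl | rfl
          · exact hxy
          · exact hce3.1
          · exact hce3.2
        · intro W hW hB
          by_cases hc : c ∈ W
          · have p1 := hB (c, z1) (by simp)
            have p2 := hB (c, z2) (by simp)
            simp only [not_and] at p1 p2
            refine ⟨s(z1, z2), he3, ?_⟩
            intro z hz
            rcases Sym2.mem_iff.1 hz with rfl | rfl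
            · exact p1 hc
            · exact p2 hc
          · have hp := hB (x, y) (by simp)
            simp only [not_and_or] at hp
            rcases hp with hp | hp
            · refine ⟨s(c, x), he1, ?_⟩
              intro z hz
              rcases Sym2.mem_iff.1 hz with rfl | rfl
              · exact hc
              · exact hp
            · refine ⟨s(c, y), he2, ?_⟩
              intro z hz
              rcases Sym2.mem_iff.1 hz with rfl | rfl
              · exact hc
              · exact hp
  · push Not at hsh
    induction e1 using Sym2.ind with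
    | _ a1 b1 =>
      induction e2 using Sym2.ind with
      | _ a2 b2 =>
        have hd : ∀ u ∈ ({a1, b1} : Finset α), ∀ w ∈ ({a2, b2} : Finset α), u ≠ w := by
          intro u hu w hw h
          subst h
          simp only [Finset.mem_insert, Finset.mem_singleton] at hu hw
          exact hsh u (Sym2.mem_iff.2 hu) (Sym2.mem_iff.2 hw)
        refine ⟨({a1, b1} : Finset α) ×ˢ ({a2, b2} : Finset α), ?_, ?_, ?_⟩
        · rw [Finset.card_product]
          have h3 : ({a1, b1} : Finset α).card ≤ 2 := Finset.card_le_two
          have h4 : ({a2, b2} : Finset α).card ≤ 2 := Finset.card_le_two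
          calc ({a1, b1} : Finset α).card * ({a2, b2} : Finset α).card ≤ 2 * 2 :=
                Nat.mul_le_mul h3 h4
            _ = 4 := rfl
        · intro b hb
          rw [Finset.mem_product] at hb
          exact hd _ hb.1 _ hb.2
        · intro W _ hB
          by_contra hcon
          push Not at hcon
          obtain ⟨x, hx, hxW⟩ := hcon _ he1
          obtain ⟨y, hy, hyW⟩ := hcon _ he2
          refine hB (x, y) ?_ ⟨hxW, hyW⟩
          rw [Finset.mem_product]
          refine ⟨?_, ?_⟩
          · simpa using Sym2.mem_iff.1 hx
          · simpa using Sym2.mem_iff.1 hy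

end Pool.Agent.helper19.AR
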